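import Pool.Agent.V1162.Q.Final

/-!
MP_63fcef_ag, Q1: negative answer in characteristic two.

Over every algebraically closed field `k` of characteristic `2` there is a smooth projective integral
threefold `X` over `k`, not isomorphic to `ℙ³`, with an ample line bundle `L` and a nowhere
vanishing map `L → T_X`. In the proof `X ⊂ ℙ⁴` is the quadric `x₀² + x₁ x₂ + x₃ x₄ = 0`, `L = O(1)`
and the map is given by the derivation `∂ / ∂ x₀`, which kills the equation because the
characteristic is two. The threefold is not isomorphic to `ℙ³` because its vector fields form a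
space of dimension at most ten, while `ℙ³` has at least twelve linearly independent vector fields.
-/

set_option autoImplicit false

open AlgebraicGeometry CategoryTheory

namespace Pool.Agent.Results.MP_63fcef_ag.CharTwoQuadric

open Pool.Agent.V1162.Q Pool.Agent.Helper922.VS MvPolynomial

attribute [local instance] MvPolynomial.gradedAlgebra

theorem result (k : Type) [Field k] [IsAlgClosed k] [CharP k 2] :
    ∃ (X : Scheme.{0}) (ι : X ⟶ H944U.PP k 4),
      IsClosedImmersion ι ∧ IsIntegral X ∧
      SmoothOfRelativeDimension 3 (ι ≫ H944U.toSpecK (homogeneousSubmodule (Fin 5) k)) ∧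
      (∃ L : LineSheaf X, L.IsAmple ∧
        ∃ φ : MapToTangent (ι ≫ H944U.toSpecK (homogeneousSubmodule (Fin 5) k)) L,
          φ.IsNonzero ∧ φ.IsNowhereVanishing) ∧
      ¬ ∃ e : X ≅ H944U.PP k 3, e.hom ≫ H944U.toSpecK (homogeneousSubmodule (Fin 4) k) =
        ι ≫ H944U.toSpecK (homogeneousSubmodule (Fin 5) k) :=
  final k

end Pool.Agent.Results.MP_63fcef_ag.CharTwoQuadric
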